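import Pool.Agent.Helper15.EP.St

set_option autoImplicit false

namespace Pool.Agent.Helper76.EP

open Polynomial Pool.Agent.Helper15.FC Pool.Agent.Helper15.EP

private lemma cc3_card (S : Finset ℕ) (a l : ℝ) (hl : 0 ≤ l)
    (h : ∀ u ∈ S, a ≤ (u:ℝ) ∧ (u:ℝ) ≤ a + l) : (S.card : ℝ) ≤ l + 1 := by
  rcases S.eq_empty_or_nonempty with h0 | h0
  · subst h0
    simp only [Finset.card_empty, Nat.cast_zero]
    linarith
  · have h1 : S ⊆ Finset.Icc (S.min' h0) (S.max' h0) := by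
      intro u hu
      rw [Finset.mem_Icc]
      exact ⟨Finset.min'_le _ _ hu, Finset.le_max' _ _ hu⟩
    have h2 := Finset.card_le_card h1
    rw [Nat.card_Icc] at h2
    have h3 := h _ (S.min'_mem h0)
    have h4 := h _ (S.max'_mem h0)
    have h5 : S.min' h0 ≤ S.max' h0 := Finset.min'_le _ _ (S.max'_mem h0)
    have h6 : (S.card : ℝ) ≤ ((S.max' h0 + 1 - S.min' h0 : ℕ) : ℝ) := by exact_mod_cast h2
    rw [Nat.cast_sub (by omega)] at h6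
    push_cast at h6
    linarith

private lemma cc3_cell (n v : ℕ) (h : 3 * v ≤ n) : ∃ p ∈ Finset.range 49,
    (47 - (p:ℝ)) * n ≤ 144 * v ∧ 144 * (v:ℝ) ≤ (48 - (p:ℝ)) * n := by
  rcases Nat.eq_zero_or_pos n with h0 | h0
  · subst h0
    have : v = 0 := by omega
    subst this
    exact ⟨0, by simp, by simp, by simp⟩
  · have hn : (0:ℝ) < n := by exact_mod_cast h0
    have h1 : (144 * (v:ℝ)) / n ≤ 48 := by
      rw [div_le_iff₀ hn]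
      have : 3 * (v:ℝ) ≤ n := by exact_mod_cast h
      linarith
    have hc : ⌈(144 * (v:ℝ)) / n⌉₊ ≤ 48 := Nat.ceil_le.2 (by exact_mod_cast h1)
    have h2 := Nat.le_ceil ((144 * (v:ℝ)) / n)
    have h3 := Nat.ceil_lt_add_one (a := (144 * (v:ℝ)) / n) (by positivity)
    have h4 : (144 * (v:ℝ)) / n * n = 144 * v := by field_simp
    generalize ⌈(144 * (v:ℝ)) / n⌉₊ = c at hc h2 h3
    generalize (144 * (v:ℝ)) / n = x at h1 h2 h3 h4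
    refine ⟨48 - c, by rw [Finset.mem_range]; omega, ?_, ?_⟩
    · rw [Nat.cast_sub hc, ← h4]
      push_cast
      exact mul_le_mul_of_nonneg_right (by linarith) hn.le
    · rw [Nat.cast_sub hc, ← h4]
      push_cast
      exact mul_le_mul_of_nonneg_right (by linarith) hn.le

private lemma cc3_u (ε : ℝ) (n u v t p r : ℕ) (hε : 0 < ε) (hr : r ≤ 48)
    (h1 : (47 - (p:ℝ)) * n ≤ 144 * v) (h2 : 144 * (v:ℝ) ≤ (48 - (p:ℝ)) * n)
    (h3 : 144 * (t:ℝ) ≤ (48 - (r:ℝ)) * n) (h4 : n ≤ 2 * u + v) (h5 : u + 2 * v ≤ n)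
    (h6 : (u:ℝ) ≤ (1 / 2 + ε) * n) (h7 : 3 * (u:ℝ) ≤ n + 2 * t + 2 * ε * n) :
    (n:ℝ) * (96 + p) / 288 ≤ u ∧
      (u:ℝ) ≤ (n:ℝ) * (96 + p) / 288 + ((n : ℝ) * TT p r / 864 + ε * n) := by
  have h4' : (n:ℝ) ≤ 2 * u + v := by exact_mod_cast h4
  have h5' : (u:ℝ) + 2 * v ≤ n := by exact_mod_cast h5
  have hn : (0:ℝ) ≤ n := Nat.cast_nonneg n
  have hεn : 0 ≤ ε * n := by positivity
  refine ⟨by linarith, ?_⟩
  have hT : 12 * (p + 1) ≤ TT p r + 3 * p ∨ 144 ≤ TT p r + 3 * p ∨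
      192 ≤ TT p r + 3 * p + 4 * r := by
    unfold TT
    omega
  rcases hT with h | h | h
  · have h' : 12 * ((p:ℝ) + 1) ≤ TT p r + 3 * p := by exact_mod_cast h
    have := mul_le_mul_of_nonneg_left h' hn
    linarith
  · have h' : (144:ℝ) ≤ TT p r + 3 * p := by exact_mod_cast h
    have := mul_le_mul_of_nonneg_left h' hn
    linarith
  · have h' : (192:ℝ) ≤ TT p r + 3 * p + 4 * r := by exact_mod_cast h
    have := mul_le_mul_of_nonneg_left h' hn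
    linarith

open scoped Classical in
theorem hCC3 : StCC3 := by
  intro ε n hε
  have hn : (0:ℝ) ≤ n := Nat.cast_nonneg n
  let U : ℕ → ℕ → Finset ℕ := fun p r => (Finset.range (n + 1)).filter (fun u : ℕ =>
    (n:ℝ) * (96 + p) / 288 ≤ u ∧
      (u:ℝ) ≤ (n:ℝ) * (96 + p) / 288 + ((n : ℝ) * TT p r / 864 + ε * n))
  let V : ℕ → Finset ℕ := fun p => (Finset.range (n + 1)).filter (fun v : ℕ =>
    (47 - (p:ℝ)) * n ≤ 144 * v ∧ 144 * (v:ℝ) ≤ (48 - (p:ℝ)) * n)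
  have hU : ∀ p r, ((U p r).card : ℝ) ≤ (n : ℝ) * TT p r / 864 + ε * n + 1 := fun p r =>
    cc3_card _ _ _ (by positivity) (fun u hu => (Finset.mem_filter.1 hu).2)
  have hV : ∀ p, ((V p).card : ℝ) ≤ (n : ℝ) / 144 + 1 := fun p => by
    refine cc3_card _ ((47 - (p:ℝ)) * n / 144) _ (by positivity) (fun v hv => ?_)
    have h := (Finset.mem_filter.1 hv).2
    constructor <;> linarith [h.1, h.2]
  have hsub : ((Finset.range (n + 1) ×ˢ Finset.range (n + 1) ×ˢ Finset.range (n + 1) ×ˢ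
    Finset.range (n + 1)).filter (fun z : ℕ × ℕ × ℕ × ℕ =>
      3 * z.2.1 ≤ n ∧ n ≤ 2 * z.1 + z.2.1 ∧ z.1 + 2 * z.2.1 ≤ n ∧
      3 * z.2.2.2 ≤ n ∧ n ≤ 2 * z.2.2.1 + z.2.2.2 ∧ z.2.2.1 + 2 * z.2.2.2 ≤ n ∧
      (z.1 : ℝ) ≤ (1 / 2 + ε) * n ∧ (z.2.2.1 : ℝ) ≤ (1 / 2 + ε) * n ∧
      3 * (z.1 : ℝ) ≤ n + 2 * z.2.2.2 + 2 * ε * n ∧
      3 * (z.2.2.1 : ℝ) ≤ n + 2 * z.2.1 + 2 * ε * n)) ⊆
      (Finset.range 49 ×ˢ Finset.range 49).biUnion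
        (fun pr => U pr.1 pr.2 ×ˢ V pr.1 ×ˢ U pr.2 pr.1 ×ˢ V pr.2) := by
    rintro ⟨u, v, s, t⟩ hz
    simp only [Finset.mem_filter, Finset.mem_product] at hz
    obtain ⟨⟨hu, hv, hs, ht⟩, a1, a2, a3, a4, a5, a6, a7, a8, a9, a10⟩ := hz
    obtain ⟨p, hp, p1, p2⟩ := cc3_cell n v a1
    obtain ⟨r, hr, r1, r2⟩ := cc3_cell n t a4
    rw [Finset.mem_biUnion]
    refine ⟨(p, r), Finset.mem_product.2 ⟨hp, hr⟩, ?_⟩
    have hp' := Finset.mem_range.1 hp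
    have hr' := Finset.mem_range.1 hr
    simp only [U, V, Finset.mem_product, Finset.mem_filter]
    exact ⟨⟨hu, cc3_u ε n u v t p r hε (by omega) p1 p2 r2 a2 a3 a7 a9⟩, ⟨hv, p1, p2⟩,
      ⟨hs, cc3_u ε n s t v r p hε (by omega) r1 r2 p2 a5 a6 a8 a10⟩, ⟨ht, r1, r2⟩⟩
  have hc := (Finset.card_le_card hsub).trans Finset.card_biUnion_le
  have hc' : (((Finset.range (n + 1) ×ˢ Finset.range (n + 1) ×ˢ Finset.range (n + 1) ×ˢ
    Finset.range (n + 1)).filter (fun z : ℕ × ℕ × ℕ × ℕ =>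
      3 * z.2.1 ≤ n ∧ n ≤ 2 * z.1 + z.2.1 ∧ z.1 + 2 * z.2.1 ≤ n ∧
      3 * z.2.2.2 ≤ n ∧ n ≤ 2 * z.2.2.1 + z.2.2.2 ∧ z.2.2.1 + 2 * z.2.2.2 ≤ n ∧
      (z.1 : ℝ) ≤ (1 / 2 + ε) * n ∧ (z.2.2.1 : ℝ) ≤ (1 / 2 + ε) * n ∧
      3 * (z.1 : ℝ) ≤ n + 2 * z.2.2.2 + 2 * ε * n ∧
      3 * (z.2.2.1 : ℝ) ≤ n + 2 * z.2.1 + 2 * ε * n)).card : ℝ) ≤
      ((∑ pr ∈ Finset.range 49 ×ˢ Finset.range 49,
        (U pr.1 pr.2 ×ˢ V pr.1 ×ˢ U pr.2 pr.1 ×ˢ V pr.2).card : ℕ) : ℝ) := by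
    exact_mod_cast hc
  refine hc'.trans ?_
  rw [Finset.sum_product]
  push_cast
  refine Finset.sum_le_sum (fun p _ => Finset.sum_le_sum (fun r _ => ?_))
  simp only [Finset.card_product]
  push_cast
  have h1 := hU p r
  have h2 := hU r p
  have h3 := hV p
  have h4 := hV r
  have k1 : 0 ≤ ((U p r).card : ℝ) := Nat.cast_nonneg _
  have k2 : 0 ≤ ((U r p).card : ℝ) := Nat.cast_nonneg _
  have k3 : 0 ≤ ((V p).card : ℝ) := Nat.cast_nonneg _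
  have k4 : 0 ≤ ((V r).card : ℝ) := Nat.cast_nonneg _
  generalize ((U p r).card : ℝ) = x1 at h1 k1 ⊢
  generalize ((U r p).card : ℝ) = x2 at h2 k2 ⊢
  generalize ((V p).card : ℝ) = x3 at h3 k3 ⊢
  generalize ((V r).card : ℝ) = x4 at h4 k4 ⊢
  generalize (n : ℝ) * TT p r / 864 + ε * n + 1 = y1 at h1 ⊢
  generalize (n : ℝ) * TT r p / 864 + ε * n + 1 = y2 at h2 ⊢
  generalize (n : ℝ) / 144 + 1 = y3 at h3 h4 ⊢
  calc x1 * (x3 * (x2 * x4)) ≤ y1 * (y3 * (y2 * y3)) := by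
        have e1 : x2 * x4 ≤ y2 * y3 := mul_le_mul h2 h4 k4 (k2.trans h2)
        have e2 : x3 * (x2 * x4) ≤ y3 * (y2 * y3) :=
          mul_le_mul h3 e1 (mul_nonneg k2 k4) (k3.trans h3)
        exact mul_le_mul h1 e2 (mul_nonneg k3 (mul_nonneg k2 k4)) (k1.trans h1)
    _ = _ := by ring

end Pool.Agent.Helper76.EP
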