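import Pool.Agent.Helper68.EP.St3

set_option autoImplicit false

open MeasureTheory Set Filter Topology
open scoped ENNReal RealInnerProductSpace

namespace Pool.Agent.Helper76.EP

open Pool.Agent.Helper68.EP
open Pool.Agent.Helper68.LM (Pl BB Bd Av HL ft fm DQ)
open Pool.Agent.Helper20.RG
open Pool.Agent.Helper20.RL (RQ Rich BM Fml)

theorem mem_DQ {b : ℤ} {x z : Pl} : z ∈ DQ b x ↔
    ⌊z 0 / (2 : ℝ) ^ b⌋ = ⌊x 0 / (2 : ℝ) ^ b⌋ ∧ ⌊z 1 / (2 : ℝ) ^ b⌋ = ⌊x 1 / (2 : ℝ) ^ b⌋ := by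
  simp [DQ, Fin.forall_fin_two]

/-- five neighbouring cells -/
def U5 (s : ℝ) (a w m n : ℤ) : Set Pl :=
  {x | ⌊x 0 / (2 : ℝ) ^ a⌋ = m ∧ |⌊pr s x / (2 : ℝ) ^ w⌋ - n| ≤ 2}

/-- first row -/
noncomputable def g5 (s : ℝ) (n c : ℤ) : ℤ := ⌊(n : ℝ) - 2 + min (s * c) (s * (c + 1))⌋

theorem cover (hPT : StPT) {s : ℝ} (hs : |s| ≤ 1) {a w m n : ℤ} (hw : w ≤ a) {x : Pl}
    (hx : x ∈ U5 s a w m n) :
    ∃ i ∈ (Finset.Ico (m * 2 ^ (a - w).toNat) ((m + 1) * 2 ^ (a - w).toNat)) ×ˢ (Finset.range 7),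
      x ∈ DQ w (pt ((i.1 : ℝ) * (2 : ℝ) ^ w) (((g5 s n i.1 + i.2 : ℤ) : ℝ) * (2 : ℝ) ^ w)) := by
  obtain ⟨h0, h1⟩ := hx
  have h2w : (0 : ℝ) < (2 : ℝ) ^ w := by positivity
  have h2a : (0 : ℝ) < (2 : ℝ) ^ a := by positivity
  have hN : (2 : ℝ) ^ a = (2 : ℝ) ^ (a - w).toNat * (2 : ℝ) ^ w := by
    rw [← zpow_natCast (2 : ℝ) (a - w).toNat, ← zpow_add₀ (by norm_num : (2 : ℝ) ≠ 0)]
    congr 1
    omega
  set N : ℤ := 2 ^ (a - w).toNat with hNdef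
  have hNr : ((N : ℤ) : ℝ) = (2 : ℝ) ^ (a - w).toNat := by
    rw [hNdef]; push_cast; rfl
  have hNpos : (0 : ℝ) < (N : ℝ) := by rw [hNr]; positivity
  set c : ℤ := ⌊x 0 / (2 : ℝ) ^ w⌋ with hc
  have hXa : x 0 / (2 : ℝ) ^ w = x 0 / (2 : ℝ) ^ a * N := by
    rw [hN, hNr]
    field_simp
  have hm1 : (m : ℝ) ≤ x 0 / (2 : ℝ) ^ a := by rw [← h0]; exact Int.floor_le _
  have hm2 : x 0 / (2 : ℝ) ^ a < m + 1 := by rw [← h0]; exact Int.lt_floor_add_one _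
  have hc1 : m * N ≤ c := by
    rw [hc, Int.le_floor, hXa]
    push_cast
    exact mul_le_mul_of_nonneg_right hm1 hNpos.le
  have hc2 : c < (m + 1) * N := by
    rw [hc, Int.floor_lt, hXa]
    push_cast
    exact mul_lt_mul_of_pos_right hm2 hNpos
  set X := x 0 / (2 : ℝ) ^ w with hX
  set Q := pr s x / (2 : ℝ) ^ w with hQ
  have hcX1 : (c : ℝ) ≤ X := Int.floor_le _
  have hcX2 : X < c + 1 := Int.lt_floor_add_one _
  have hx1 : x 1 / (2 : ℝ) ^ w = Q + s * X := by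
    rw [hQ, hX, pr]
    ring
  obtain ⟨h3, h4⟩ := abs_le.1 h1
  have hQ1 : (n : ℝ) - 2 ≤ Q := by
    have h5 : (((n - 2 : ℤ)) : ℝ) ≤ Q := Int.le_floor.1 (by omega)
    push_cast at h5
    exact h5
  have hQ2 : Q < (n : ℝ) + 3 := by
    have h5 : Q < ((n + 3 : ℤ) : ℝ) := Int.floor_lt.1 (by omega)
    push_cast at h5
    exact h5
  have hl1 : min (s * c) (s * (c + 1)) ≤ s * X := by
    rcases le_total 0 s with h | h
    · exact (min_le_left _ _).trans (mul_le_mul_of_nonneg_left hcX1 h)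
    · exact (min_le_right _ _).trans (mul_le_mul_of_nonpos_left hcX2.le h)
  have hl2 : s * X ≤ min (s * c) (s * (c + 1)) + 1 := by
    obtain ⟨h5, h6⟩ := abs_le.1 hs
    rw [← sub_le_iff_le_add]
    apply le_min
    · nlinarith
    · nlinarith
  set y : ℝ := (n : ℝ) - 2 + min (s * c) (s * (c + 1)) with hy
  have hg : g5 s n c = ⌊y⌋ := rfl
  have hr1 : ⌊y⌋ ≤ ⌊x 1 / (2 : ℝ) ^ w⌋ := by
    apply Int.floor_le_floor
    rw [hx1, hy]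
    linarith
  have hr2 : ⌊x 1 / (2 : ℝ) ^ w⌋ < ⌊y⌋ + 7 := by
    rw [Int.floor_lt]
    push_cast
    have := Int.lt_floor_add_one y
    rw [hx1]
    rw [hy] at this ⊢
    linarith
  refine ⟨(c, (⌊x 1 / (2 : ℝ) ^ w⌋ - ⌊y⌋).toNat), ?_, ?_⟩
  · rw [Finset.mem_product, Finset.mem_Ico, Finset.mem_range]
    refine ⟨⟨hc1, hc2⟩, ?_⟩
    change (⌊x 1 / (2 : ℝ) ^ w⌋ - ⌊y⌋).toNat < 7
    omega
  · rw [mem_DQ, (hPT.1 _ _).1, (hPT.1 _ _).2]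
    constructor
    · change _ = ⌊(c : ℝ) * (2 : ℝ) ^ w / (2 : ℝ) ^ w⌋
      rw [mul_div_assoc, div_self h2w.ne', mul_one, Int.floor_intCast]
    · change _ = ⌊((g5 s n c + ((⌊x 1 / (2 : ℝ) ^ w⌋ - ⌊y⌋).toNat : ℕ) : ℤ) : ℝ) * (2 : ℝ) ^ w /
        (2 : ℝ) ^ w⌋
      rw [mul_div_assoc, div_self h2w.ne', mul_one, Int.floor_intCast, hg]
      omega

theorem vol_U5 (hPT : StPT) (hEFB : StEFB) (E : Set Pl) {D : ℝ} {s : ℝ} (hs : |s| ≤ 1)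
    {a w m n : ℤ} (hw : w ≤ a) :
    volume (Fb E D w ∩ U5 s a w m n) ≤ ENNReal.ofReal (7 * D * (2 : ℝ) ^ (a + w)) := by
  set T := (Finset.Ico (m * 2 ^ (a - w).toNat) ((m + 1) * 2 ^ (a - w).toNat)) ×ˢ (Finset.range 7)
    with hT
  set f : ℤ × ℕ → Set Pl := fun i => Fb E D w ∩
    DQ w (pt ((i.1 : ℝ) * (2 : ℝ) ^ w) (((g5 s n i.1 + i.2 : ℤ) : ℝ) * (2 : ℝ) ^ w)) with hf
  have hsub : Fb E D w ∩ U5 s a w m n ⊆ ⋃ i ∈ T, f i := by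
    rintro x ⟨hx1, hx2⟩
    obtain ⟨i, hi, hxi⟩ := cover hPT hs hw hx2
    exact Set.mem_biUnion hi ⟨hx1, hxi⟩
  refine (measure_mono hsub).trans ((measure_biUnion_finset_le T f).trans ?_)
  have hle : ∀ i ∈ T, volume (f i) ≤ ENNReal.ofReal (D * (4 : ℝ) ^ w) := fun i _ =>
    hEFB.2.2.2.2 E D w w _ le_rfl
  refine (Finset.sum_le_card_nsmul T _ _ hle).trans ?_
  have hcard : (T.card : ℝ) = (2 : ℝ) ^ (a - w) * 7 := by
    rw [hT, Finset.card_product, Int.card_Ico, Finset.card_range]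
    have h1 : (m + 1) * 2 ^ (a - w).toNat - m * 2 ^ (a - w).toNat = ((2 ^ (a - w).toNat : ℕ) : ℤ) := by
      push_cast
      ring
    rw [h1, Int.toNat_natCast]
    push_cast
    rw [← zpow_natCast (2 : ℝ) (a - w).toNat, Int.toNat_of_nonneg (by omega)]
  rw [nsmul_eq_mul, ← ENNReal.ofReal_natCast, ← ENNReal.ofReal_mul (Nat.cast_nonneg _), hcard]
  apply ENNReal.ofReal_le_ofReal
  apply le_of_eq
  have h4 : (4 : ℝ) ^ w = (2 : ℝ) ^ w * (2 : ℝ) ^ w := by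
    rw [← mul_zpow]
    norm_num
  have h5 : (2 : ℝ) ^ (a + w) = (2 : ℝ) ^ (a - w) * ((2 : ℝ) ^ w * (2 : ℝ) ^ w) := by
    rw [← zpow_add₀ (by norm_num : (2 : ℝ) ≠ 0), ← zpow_add₀ (by norm_num : (2 : ℝ) ≠ 0)]
    congr 1
    ring
  rw [h4, h5]
  ring

theorem add_pt0 (hPT : StPT) (y : Pl) (t : ℝ) : (y + pt 0 t) 0 = y 0 := by
  rw [PiLp.add_apply, (hPT.1 0 t).1, add_zero]

theorem pr_add_pt (hPT : StPT) (s : ℝ) (y : Pl) (t : ℝ) : pr s (y + pt 0 t) = pr s y + t := by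
  unfold pr
  rw [add_pt0 hPT, PiLp.add_apply, (hPT.1 0 t).2]
  ring

theorem shift_mem (hPT : StPT) {s : ℝ} {a W i : ℤ} {y z : Pl} (h : z ∈ RQ s a W y) :
    z + pt 0 (i * (2 : ℝ) ^ W) ∈ RQ s a W (y + pt 0 (i * (2 : ℝ) ^ W)) := by
  have h2w : (0 : ℝ) < (2 : ℝ) ^ W := by positivity
  obtain ⟨h1, h2⟩ := h
  refine ⟨?_, ?_⟩
  · rw [add_pt0 hPT, add_pt0 hPT]
    exact h1
  · rw [pr_add_pt hPT, pr_add_pt hPT, add_div, add_div, mul_div_assoc, div_self h2w.ne', mul_one,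
      Int.floor_add_intCast, Int.floor_add_intCast, h2]

theorem hEM5 (hPT : StPT) (hLGR : Pool.Agent.Helper20.RL.StLGR) (hEFB : StEFB)
    (hEVF : StEVF) (hECS : StECS) : StEM5 := by
  intro P Δ u₁ u₂ j₂ k₂ θ θ'' μ E V' hSy hu1 huq hj hE hθ hθ'' hμ hV'
  have hs : |Δ.sl u₂ j₂| ≤ 1 := hSy.slope u₂ j₂ hu1 hj
  obtain ⟨hv1, hv2, hv3, hv4⟩ := hEVF P Δ u₂ j₂ k₂ θ E hE hθ
  obtain ⟨hw1, hw2, hw3, hw4⟩ := hEVF P Δ u₂ j₂ k₂ θ'' E hE hθ''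
  set s := Δ.sl u₂ j₂ with hs_def
  set a : ℤ := k₂ - (u₂ : ℤ) with ha
  set F := Fo P u₂ k₂ (q0 P u₂) E with hF
  set D := DD P u₁ with hDdef
  have hD : 0 ≤ D := by
    rw [hDdef, DD]
    positivity
  have hau : k₂ - 2 ^ q0 P u₂ ≤ a := by
    have : (u₂ : ℤ) ≤ 2 ^ q0 P u₂ := by exact_mod_cast huq
    omega
  -- the conditions
  let Cd : ℤ → ℤ → Pl → Prop := fun W k y => Bc P Δ u₂ j₂ k₂ θ E y ≤ W ∧ W ≤ k₂ - 2 ^ q0 P u₂ ∧
    |k| ≤ 2 ∧ Rich F s a W θ'' (y + pt 0 (k * (2 : ℝ) ^ W)) ∧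
    ENNReal.ofReal μ * volume (Qc P Δ u₂ j₂ k₂ θ E y) ≤
      volume (Fb E D W ∩ Qc P Δ u₂ j₂ k₂ θ E y)
  have hinv : ∀ (W k : ℤ) (y z : Pl), y ∈ V' → Cd W k y → z ∈ Qc P Δ u₂ j₂ k₂ θ E y →
      z ∈ V' ∧ Cd W k z ∧ z ∈ RQ s a W y := by
    intro W k y z hy hc hz
    obtain ⟨hc1, hc2, hc3, hc4, hc5⟩ := hc
    obtain ⟨-, -, -, h4⟩ := hv1 y (hV'.1 hy)
    obtain ⟨-, h5, h6⟩ := h4 z hz
    have hzR : z ∈ RQ s a W y := hLGR.2.2.1 s a _ a W y le_rfl hc1 hz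
    refine ⟨hV'.2 y hy hz, ⟨?_, hc2, hc3, ?_, ?_⟩, hzR⟩
    · rw [h5]
      exact hc1
    · have h7 := hLGR.2.1 s a W _ _ (shift_mem hPT (i := k) hzR)
      unfold Rich at hc4 ⊢
      rw [h7]
      exact hc4
    · rw [h6]
      exact hc5
  have hV'' : ∀ (W k : ℤ) (y : Pl), y ∈ V' → Cd W k y →
      y + pt 0 (k * (2 : ℝ) ^ W) ∈ Vc P Δ u₂ j₂ k₂ θ'' E ∧
        W ≤ Bc P Δ u₂ j₂ k₂ θ'' E (y + pt 0 (k * (2 : ℝ) ^ W)) := by
    intro W k y hy hc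
    obtain ⟨hc1, hc2, hc3, hc4, hc5⟩ := hc
    have hWc : W ∈ Wc P Δ u₂ j₂ k₂ θ'' E (y + pt 0 (k * (2 : ℝ) ^ W)) := by
      refine ⟨?_, hc2, hc4⟩
      have := (hv1 y (hV'.1 hy)).1
      exact this.1.trans hc1
    have hmem : y + pt 0 (k * (2 : ℝ) ^ W) ∈ Vc P Δ u₂ j₂ k₂ θ'' E := ⟨W, hWc⟩
    exact ⟨hmem, (hw1 _ hmem).2.1 W hWc⟩
  -- the cells
  let C : ℤ × ℤ × ℤ → Set Pl := fun i => {x | x ∈ Vc P Δ u₂ j₂ k₂ θ'' E ∧
    Bc P Δ u₂ j₂ k₂ θ'' E x = i.1 ∧ ⌊x 0 / (2 : ℝ) ^ a⌋ = i.2.1 ∧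
      ⌊pr s x / (2 : ℝ) ^ i.1⌋ = i.2.2}
  have hCcell : ∀ (i : ℤ × ℤ × ℤ) (y : Pl), y ∈ C i → RQ s a i.1 y = C i := by
    intro i y hy
    obtain ⟨hy1, hy2, hy3, hy4⟩ := hy
    ext x
    constructor
    · intro hx
      have hx' : x ∈ Qc P Δ u₂ j₂ k₂ θ'' E y := by
        rw [Qc, hy2]
        exact hx
      obtain ⟨h1, h2, -⟩ := (hw1 y hy1).2.2.2 x hx'
      exact ⟨h1, h2.trans hy2, hx.1.trans hy3, hx.2.trans hy4⟩
    · rintro ⟨h1, h2, h3, h4⟩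
      exact ⟨h3.trans hy3.symm, h4.trans hy4.symm⟩
  let S : ℤ × ℤ × ℤ → Set Pl := fun i => {y | y ∈ V' ∧ ∃ W k : ℤ, Cd W k y ∧
    y + pt 0 (k * (2 : ℝ) ^ W) ∈ C i}
  have hSsub : ∀ i, Sub P Δ u₂ j₂ k₂ θ E (S i) := by
    intro i
    refine ⟨fun y hy => hV'.1 hy.1, ?_⟩
    rintro y ⟨hy, W, k, hc, hC⟩ z hz
    obtain ⟨hz1, hz2, hz3⟩ := hinv W k y z hy hc hz
    refine ⟨hz1, W, k, hz2, ?_⟩
    rw [← hCcell i _ hC]
    have hW : W ≤ i.1 := by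
      have h1 := (hV'' W k y hy hc).2
      have h2 := hC.2.1
      omega
    exact hLGR.2.2.1 s a W a i.1 _ le_rfl hW (shift_mem hPT hz3)
  have hSU : ∀ i, S i ⊆ U5 s a i.1 i.2.1 i.2.2 := by
    rintro i y ⟨hy, W, k, hc, hC⟩
    have hW : W ≤ i.1 := by
      have h1 := (hV'' W k y hy hc).2
      have h2 := hC.2.1
      omega
    obtain ⟨-, -, h3, h4⟩ := hC
    rw [add_pt0 hPT] at h3
    rw [pr_add_pt hPT] at h4
    refine ⟨h3, ?_⟩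
    have h2w : (0 : ℝ) < (2 : ℝ) ^ i.1 := by positivity
    have hk : |(k : ℝ)| ≤ 2 := by exact_mod_cast hc.2.2.1
    have hr : (2 : ℝ) ^ W / (2 : ℝ) ^ i.1 ≤ 1 := by
      rw [div_le_one h2w]
      exact zpow_le_zpow_right₀ (by norm_num) hW
    have hr0 : 0 ≤ (2 : ℝ) ^ W / (2 : ℝ) ^ i.1 := by positivity
    have hkr : |(k : ℝ) * ((2 : ℝ) ^ W / (2 : ℝ) ^ i.1)| ≤ 2 := by
      rw [abs_mul, abs_of_nonneg hr0]
      nlinarith [abs_nonneg (k : ℝ)]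
    obtain ⟨h5, h6⟩ := abs_le.1 hkr
    rw [add_div, mul_div_assoc] at h4
    have h7 := Int.floor_eq_iff.1 h4
    rw [abs_le]
    constructor
    · have : i.2.2 - 2 ≤ ⌊pr s y / (2 : ℝ) ^ i.1⌋ := by
        rw [Int.le_floor]
        push_cast
        linarith [h7.1]
      omega
    · have : ⌊pr s y / (2 : ℝ) ^ i.1⌋ < i.2.2 + 3 := by
        rw [Int.floor_lt]
        push_cast
        linarith [h7.2]
      omega
  have hvolS : ∀ i, volume (S i) ≤ ENNReal.ofReal (7 * D / μ) * volume (C i) := by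
    intro i
    rcases (S i).eq_empty_or_nonempty with hem | ⟨y, hy⟩
    · rw [hem, measure_empty]
      exact bot_le
    have hy' := hy
    obtain ⟨hyV, W, k, hc, hC⟩ := hy'
    have hia : i.1 ≤ a := by
      have h1 := (hw1 _ hC.1).1.2.1
      have h2 := hC.2.1
      omega
    have hvC : volume (C i) = ENNReal.ofReal ((2 : ℝ) ^ (a + i.1)) := by
      rw [← hCcell i _ hC]
      exact (hLGR.1 s a i.1 _).2.1
    have hFml := (hv4 (S i) (hSsub i)).1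
    have h1 := hECS F s θ (S i) Set.univ (Fb E D i.1) (fun _ => a) (Bc P Δ u₂ j₂ k₂ θ E)
      (ENNReal.ofReal (1 / μ)) hFml (by
        rintro z ⟨hz, W', k', hc', hC'⟩
        have hW : W' ≤ i.1 := by
          have h1 := (hV'' W' k' z hz hc').2
          have h2 := hC'.2.1
          omega
        have h2 : ENNReal.ofReal μ * volume (RQ s a (Bc P Δ u₂ j₂ k₂ θ E z) z) ≤
            volume (Fb E D i.1 ∩ RQ s a (Bc P Δ u₂ j₂ k₂ θ E z) z) :=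
          hc'.2.2.2.2.trans (measure_mono (Set.inter_subset_inter_left _
            (hEFB.2.1 E D D W' i.1 hW le_rfl)))
        rw [Set.univ_inter]
        have h3 : volume (RQ s a (Bc P Δ u₂ j₂ k₂ θ E z) z) = ENNReal.ofReal (1 / μ) *
            (ENNReal.ofReal μ * volume (RQ s a (Bc P Δ u₂ j₂ k₂ θ E z) z)) := by
          rw [← mul_assoc, ← ENNReal.ofReal_mul (by positivity), one_div, inv_mul_cancel₀ hμ.ne',
            ENNReal.ofReal_one, one_mul]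
        rw [h3]
        exact mul_le_mul_right h2 _)
    rw [Set.univ_inter] at h1
    refine h1.trans ?_
    have h4 : volume (Fb E D i.1 ∩ S i) ≤ ENNReal.ofReal (7 * D * (2 : ℝ) ^ (a + i.1)) :=
      (measure_mono (Set.inter_subset_inter_right _ (hSU i))).trans
        (vol_U5 hPT hEFB E hs hia)
    refine (mul_le_mul_right h4 _).trans ?_
    rw [hvC, ← ENNReal.ofReal_mul (by positivity), ← ENNReal.ofReal_mul (by positivity)]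
    apply ENNReal.ofReal_le_ofReal
    apply le_of_eq
    field_simp
  have hCs : Cs P Δ u₁ u₂ j₂ k₂ θ θ'' μ E V' = ⋃ i, S i := by
    ext y
    rw [Set.mem_iUnion]
    constructor
    · rintro ⟨hy, W, k, h1, h2, h3, h4, h5⟩
      have hc : Cd W k y := ⟨h1, h2, h3, h4, h5⟩
      exact ⟨(Bc P Δ u₂ j₂ k₂ θ'' E (y + pt 0 (k * (2 : ℝ) ^ W)),
        ⌊(y + pt 0 (k * (2 : ℝ) ^ W)) 0 / (2 : ℝ) ^ a⌋,
        ⌊pr s (y + pt 0 (k * (2 : ℝ) ^ W)) / (2 : ℝ) ^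
          (Bc P Δ u₂ j₂ k₂ θ'' E (y + pt 0 (k * (2 : ℝ) ^ W)))⌋), hy, W, k, hc,
        (hV'' W k y hy hc).1, rfl, rfl, rfl⟩
    · rintro ⟨i, hy, W, k, hc, -⟩
      exact ⟨hy, W, k, hc.1, hc.2.1, hc.2.2.1, hc.2.2.2.1, hc.2.2.2.2⟩
  refine ⟨?_, ?_⟩
  · rw [hCs]
    refine ⟨Set.iUnion_subset fun i => (hSsub i).1, ?_⟩
    intro y hy
    rw [Set.mem_iUnion] at hy
    obtain ⟨i, hi⟩ := hy
    exact ((hSsub i).2 y hi).trans (Set.subset_iUnion S i)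
  · rw [hCs]
    refine (measure_iUnion_le S).trans ((ENNReal.tsum_le_tsum hvolS).trans ?_)
    rw [ENNReal.tsum_mul_left]
    have hCm : ∀ i, MeasurableSet (C i) := by
      intro i
      rcases (C i).eq_empty_or_nonempty with hem | ⟨y, hy⟩
      · rw [hem]
        exact MeasurableSet.empty
      · rw [← hCcell i y hy]
        exact (hLGR.1 s a i.1 y).1
    have hCd : Pairwise (Function.onFun Disjoint C) := by
      intro i j hij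
      rw [Function.onFun, Set.disjoint_left]
      rintro x ⟨-, h1, h2, h3⟩ ⟨-, h4, h5, h6⟩
      apply hij
      have e1 : i.1 = j.1 := h1.symm.trans h4
      have e2 : i.2.1 = j.2.1 := h2.symm.trans h5
      have e3 : i.2.2 = j.2.2 := by
        rw [← h3, ← h6, e1]
      exact Prod.ext e1 (Prod.ext e2 e3)
    rw [← measure_iUnion hCd hCm]
    refine mul_le_mul' (ENNReal.ofReal_le_ofReal ?_) (measure_mono ?_)
    · apply div_le_div_of_nonneg_right _ hμ.le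
      linarith
    · exact Set.iUnion_subset fun i x hx => hx.1

end Pool.Agent.Helper76.EP
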