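import Pool.Agent.Helper68.EP.St5

/-!
# Project EP (MP_cb927e_an), module XB1: transversal hits
-/

set_option autoImplicit false

open MeasureTheory Set Filter Topology
open scoped ENNReal RealInnerProductSpace

namespace Pool.Agent.Helper76.EP

open Pool.Agent.Helper68.LM (Pl BB Bd Av HL ft fm DQ)
open Pool.Agent.Helper68.EP Pool.Agent.Helper20.RG
open Pool.Agent.Helper20.RL (RQ Rich BM Fml)

/-- an interval of length `N L` is covered by `N + 1` intervals of length `L` -/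
theorem exists_piece (t L : ℝ) (N : ℕ) (hL : 0 < L) (h0 : 0 ≤ t) (h1 : t ≤ N * L) :
    ∃ n ∈ Finset.range (N + 1), (n : ℝ) * L ≤ t ∧ t ≤ (n : ℝ) * L + L := by
  refine ⟨⌊t / L⌋₊, ?_, ?_, ?_⟩
  · rw [Finset.mem_range, Nat.lt_succ_iff]
    have h : t / L ≤ N := by rw [div_le_iff₀ hL]; exact h1
    exact Nat.floor_le_of_le h
  · have h := Nat.floor_le (div_nonneg h0 hL.le)
    rwa [le_div_iff₀ hL] at h
  · have h := (Nat.lt_floor_add_one (t / L)).le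
    rw [div_le_iff₀ hL] at h
    linarith [h]

/-- shift by an integer -/
theorem exists_shift (x y : ℝ) (h : |x - y| ≤ 3) : ∃ i : ℤ, i ∈ Finset.Icc (-3 : ℤ) 3 ∧ ⌊x + i⌋ = ⌊y⌋ := by
  rw [abs_le] at h
  have h1 : ⌊y⌋ ≤ ⌊x⌋ + 3 := by
    have h2 : ⌊y⌋ ≤ ⌊x + 3⌋ := Int.floor_mono (by linarith)
    have h3 : ⌊x + 3⌋ = ⌊x⌋ + 3 := by
      simp
    omega
  have h4 : ⌊x⌋ ≤ ⌊y⌋ + 3 := by
    have h2 : ⌊x⌋ ≤ ⌊y + 3⌋ := Int.floor_mono (by linarith)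
    have h3 : ⌊y + 3⌋ = ⌊y⌋ + 3 := by
      simp
    omega
  refine ⟨⌊y⌋ - ⌊x⌋, ?_, ?_⟩
  · rw [Finset.mem_Icc]
    constructor <;> omega
  · rw [Int.floor_add_intCast]
    ring

/-- the set of points near a cell whose translate is in the ridges -/
theorem cell_bound (hECR : StECR) (F : Set Pl) (s₁ s₂ : ℝ)
    (a b B : ℤ) (d : ℕ) (D ϑ : ℝ) (v₁ v₂ y₀ : Pl) (h1 : |s₁| ≤ 1) (h2 : |s₂| ≤ 1) (hF : BM F) (hba : b ≤ a)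
    (hD : 0 < D) (hϑ : 0 < ϑ)
    (hden : ∀ y : Pl, volume (F ∩ DQ b y) ≤ ENNReal.ofReal (D * (4 : ℝ) ^ b))
    (hc : b ≤ B ∨ (2 : ℝ) ^ b ≤ |s₁ - s₂| * (2 : ℝ) ^ a) :
    volume {x : Pl | |(x - v₁) 0 - y₀ 0| ≤ 4 * (2 : ℝ) ^ (a + (d : ℤ)) ∧
      |pr s₁ (x - v₁) - pr s₁ y₀| ≤ 3 * (2 : ℝ) ^ B ∧
      ∃ i ∈ Finset.Icc (-3 : ℤ) 3, x + ((((i : ℝ) * (2 : ℝ) ^ a) • E s₂) - v₂) ∈ Rs F s₂ a b ϑ} ≤
      ENNReal.ofReal (207900 * D / ϑ * (2 : ℝ) ^ (a + (d : ℤ) + B)) := by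
  set w : ℤ → Pl := fun i => (((i : ℝ) * (2 : ℝ) ^ a) • E s₂) - v₂ with hw
  set g : ℤ → ℕ → ℝ := fun i n => y₀ 0 + (w i + v₁) 0 - 4 * (2 : ℝ) ^ (a + (d : ℤ)) + n * (2 : ℝ) ^ a with hg
  set c : ℤ → ℝ := fun i => pr s₁ y₀ + pr s₁ (w i + v₁) with hcd
  have ha0 : (0 : ℝ) < (2 : ℝ) ^ a := by positivity
  have hB0 : (0 : ℝ) < (2 : ℝ) ^ B := by positivity
  have had : (2 : ℝ) ^ (a + (d : ℤ)) = 2 ^ d * (2 : ℝ) ^ a := by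
    rw [zpow_add₀ (by norm_num), zpow_natCast]
    ring
  have hsub : {x : Pl | |(x - v₁) 0 - y₀ 0| ≤ 4 * (2 : ℝ) ^ (a + (d : ℤ)) ∧
      |pr s₁ (x - v₁) - pr s₁ y₀| ≤ 3 * (2 : ℝ) ^ B ∧
      ∃ i ∈ Finset.Icc (-3 : ℤ) 3, x + w i ∈ Rs F s₂ a b ϑ} ⊆
      ⋃ i ∈ Finset.Icc (-3 : ℤ) 3, ⋃ n ∈ Finset.range (8 * 2 ^ d + 1), (fun x : Pl => x + w i) ⁻¹'
        (Rs F s₂ a b ϑ ∩ {x : Pl | g i n ≤ x 0 ∧ x 0 ≤ g i n + (2 : ℝ) ^ a ∧ |pr s₁ x - c i| ≤ 3 * (2 : ℝ) ^ B}) := by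
    intro x hx
    obtain ⟨hx0, hx1, i, hi, hxi⟩ := hx
    rw [abs_le] at hx0
    have e0 : (x + w i) 0 = (x - v₁) 0 + (w i + v₁) 0 := by
      simp only [PiLp.add_apply, PiLp.sub_apply]
      ring
    obtain ⟨n, hn, hn1, hn2⟩ := exists_piece ((x + w i) 0 - (y₀ 0 + (w i + v₁) 0 - 4 * (2 : ℝ) ^ (a + (d : ℤ))))
      ((2 : ℝ) ^ a) (8 * 2 ^ d) ha0 (by rw [e0]; linarith [hx0.1]) (by
        rw [e0]
        push_cast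
        rw [had] at hx0 ⊢
        linarith [hx0.2])
    simp only [mem_iUnion]
    refine ⟨i, hi, n, hn, ?_⟩
    rw [mem_preimage]
    refine ⟨hxi, ?_, ?_, ?_⟩
    · simp only [hg]
      linarith
    · simp only [hg]
      linarith
    · have e1 : pr s₁ (x + w i) - c i = pr s₁ (x - v₁) - pr s₁ y₀ := by
        simp only [hcd, pr, PiLp.add_apply, PiLp.sub_apply]
        ring
      rw [e1]
      exact hx1
  have hone : ∀ (i : ℤ) (n : ℕ), volume ((fun x : Pl => x + w i) ⁻¹'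
        (Rs F s₂ a b ϑ ∩ {x : Pl | g i n ≤ x 0 ∧ x 0 ≤ g i n + (2 : ℝ) ^ a ∧ |pr s₁ x - c i| ≤ 3 * (2 : ℝ) ^ B})) ≤
        ENNReal.ofReal (1100 * D / ϑ * ((2 : ℝ) ^ a * (3 * (2 : ℝ) ^ B))) := by
    intro i n
    rw [measure_preimage_add_right]
    refine hECR F s₂ s₁ a b D ϑ (g i n) (c i) (3 * (2 : ℝ) ^ B) h2 h1 hF hba hD hϑ hden (by positivity) ?_
    rcases hc with hc | hc
    · left
      have : (2 : ℝ) ^ b ≤ (2 : ℝ) ^ B := zpow_le_zpow_right₀ (by norm_num) hc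
      linarith
    · right
      rw [abs_sub_comm]
      exact hc
  calc volume {x : Pl | |(x - v₁) 0 - y₀ 0| ≤ 4 * (2 : ℝ) ^ (a + (d : ℤ)) ∧
      |pr s₁ (x - v₁) - pr s₁ y₀| ≤ 3 * (2 : ℝ) ^ B ∧
      ∃ i ∈ Finset.Icc (-3 : ℤ) 3, x + w i ∈ Rs F s₂ a b ϑ}
      ≤ volume (⋃ i ∈ Finset.Icc (-3 : ℤ) 3, ⋃ n ∈ Finset.range (8 * 2 ^ d + 1), (fun x : Pl => x + w i) ⁻¹'
        (Rs F s₂ a b ϑ ∩ {x : Pl | g i n ≤ x 0 ∧ x 0 ≤ g i n + (2 : ℝ) ^ a ∧ |pr s₁ x - c i| ≤ 3 * (2 : ℝ) ^ B})) :=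
        measure_mono hsub
    _ ≤ ∑ i ∈ Finset.Icc (-3 : ℤ) 3, ∑ n ∈ Finset.range (8 * 2 ^ d + 1),
        ENNReal.ofReal (1100 * D / ϑ * ((2 : ℝ) ^ a * (3 * (2 : ℝ) ^ B))) := by
        refine (measure_biUnion_finset_le _ _).trans (Finset.sum_le_sum fun i _ => ?_)
        exact (measure_biUnion_finset_le _ _).trans (Finset.sum_le_sum fun n _ => hone i n)
    _ = ENNReal.ofReal (7 * ((8 * 2 ^ d + 1) * (1100 * D / ϑ * ((2 : ℝ) ^ a * (3 * (2 : ℝ) ^ B))))) := by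
        rw [Finset.sum_const, Finset.sum_const, Finset.card_range, Int.card_Icc]
        generalize 1100 * D / ϑ * ((2 : ℝ) ^ a * (3 * (2 : ℝ) ^ B)) = R
        have e7 : (7 : ℝ) * ((8 * 2 ^ d + 1) * R) = (7 : ℕ) * (((8 * 2 ^ d + 1 : ℕ) : ℝ) * R) := by
          push_cast
          ring
        rw [e7, ENNReal.ofReal_mul (by positivity), ENNReal.ofReal_mul (by positivity),
          ENNReal.ofReal_natCast, ENNReal.ofReal_natCast, nsmul_eq_mul, nsmul_eq_mul]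
        rfl
    _ ≤ ENNReal.ofReal (207900 * D / ϑ * (2 : ℝ) ^ (a + (d : ℤ) + B)) := by
        apply ENNReal.ofReal_le_ofReal
        rw [zpow_add₀ (by norm_num) (a + (d : ℤ)) B, had]
        have hd1 : (1 : ℝ) ≤ 2 ^ d := one_le_pow₀ (by norm_num)
        have hK : (0 : ℝ) ≤ D / ϑ * ((2 : ℝ) ^ a * (2 : ℝ) ^ B) := by positivity
        have h3 : (8 * (2 : ℝ) ^ d + 1) * (D / ϑ * ((2 : ℝ) ^ a * (2 : ℝ) ^ B)) ≤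
            (9 * (2 : ℝ) ^ d) * (D / ϑ * ((2 : ℝ) ^ a * (2 : ℝ) ^ B)) :=
          mul_le_mul_of_nonneg_right (by linarith) hK
        calc (7 : ℝ) * ((8 * 2 ^ d + 1) * (1100 * D / ϑ * ((2 : ℝ) ^ a * (3 * (2 : ℝ) ^ B))))
            = 23100 * ((8 * (2 : ℝ) ^ d + 1) * (D / ϑ * ((2 : ℝ) ^ a * (2 : ℝ) ^ B))) := by ring
          _ ≤ 23100 * ((9 * (2 : ℝ) ^ d) * (D / ϑ * ((2 : ℝ) ^ a * (2 : ℝ) ^ B))) := by linarith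
          _ = 207900 * D / ϑ * (2 ^ d * (2 : ℝ) ^ a * (2 : ℝ) ^ B) := by ring

/-- XB1 -/
theorem hXB1 (hPT : Pool.Agent.Helper20.RG.StPT) (hLGR : Pool.Agent.Helper20.RL.StLGR) (hEFB : StEFB)
    (hEVF : StEVF) (hECR : StECR) (hXL : StXL) : StXB1 := by
  intro P Δ ct u₁ j₁ u₂ j₂ q₂ k θ E₁ E₂ hS ho₁ ho₂ hu hj₁ hj₂ hq0 hq1 hB₁ hB₂
  have hθ : 0 < θ := ho₁.th.1
  have hV := (hEVF P Δ u₁ j₁ k θ E₁ hB₁ hθ).1
  have hX2 := (hXL P Δ u₂ j₂ k θ E₂ hS ho₂ hj₂ hB₂).2.1 q₂ hq0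
  have hs₁ : |Δ.sl u₁ j₁| ≤ 1 := hS.slope u₁ j₁ ho₁.u1 hj₁
  have hs₂ : |Δ.sl u₂ j₂| ≤ 1 := hS.slope u₂ j₂ ho₂.u1 hj₂
  set s₁ := Δ.sl u₁ j₁ with hs₁d
  set s₂ := Δ.sl u₂ j₂ with hs₂d
  have hDD : 0 < DD P u₂ := by
    unfold DD
    positivity
  have hba : k - 2 ^ q₂ ≤ k - (u₂ : ℤ) := by
    have h1 : 64 * u₂ ≤ 2 ^ q0 P u₂ := ho₂.uq
    have h2 : 2 ^ q0 P u₂ ≤ 2 ^ q₂ := Nat.pow_le_pow_right (by norm_num) hq0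
    have h3 : u₂ ≤ 2 ^ q₂ := by omega
    have h4 : (u₂ : ℤ) ≤ 2 ^ q₂ := by exact_mod_cast h3
    linarith
  have had : k - (u₁ : ℤ) = (k - (u₂ : ℤ)) + ((u₂ - u₁ : ℕ) : ℤ) := by
    have : u₁ ≤ u₂ := hu
    omega
  -- the cells
  set C : ℤ × ℤ × ℤ → Set Pl := fun ι => {y | y ∈ Vc P Δ u₁ j₁ k θ E₁ ∧ Bc P Δ u₁ j₁ k θ E₁ y = ι.1 ∧
    ⌊y 0 / (2 : ℝ) ^ (k - (u₁ : ℤ))⌋ = ι.2.1 ∧ ⌊pr s₁ y / (2 : ℝ) ^ ι.1⌋ = ι.2.2} with hC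
  have hCell : ∀ (ι : ℤ × ℤ × ℤ) (y₀ : Pl), y₀ ∈ C ι → C ι = RQ s₁ (k - (u₁ : ℤ)) ι.1 y₀ := by
    intro ι y₀ hy₀
    obtain ⟨h1, h2, h3, h4⟩ := hy₀
    ext z
    constructor
    · rintro ⟨g1, g2, g3, g4⟩
      exact ⟨by rw [g3, h3], by rw [g4, h4]⟩
    · intro hz
      have hz' : z ∈ Qc P Δ u₁ j₁ k θ E₁ y₀ := by
        unfold Qc
        rw [h2]
        exact hz
      obtain ⟨g1, g2, g3⟩ := (hV y₀ h1).2.2.2 z hz'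
      exact ⟨g1, by rw [g2, h2], by rw [hz.1, h3], by rw [hz.2, h4]⟩
  have hCm : ∀ ι, MeasurableSet (C ι) := by
    intro ι
    rcases (C ι).eq_empty_or_nonempty with h | ⟨y₀, hy₀⟩
    · rw [h]
      exact MeasurableSet.empty
    · rw [hCell ι y₀ hy₀]
      exact (hLGR.1 _ _ _ _).1
  have hCd : Pairwise (Function.onFun Disjoint C) := by
    intro ι ι' hne
    rw [Function.onFun, Set.disjoint_left]
    rintro y ⟨-, h2, h3, h4⟩ ⟨-, g2, g3, g4⟩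
    apply hne
    have e1 : ι.1 = ι'.1 := by rw [← h2, ← g2]
    have e2 : ι.2.1 = ι'.2.1 := by rw [← h3, ← g3]
    have e3 : ι.2.2 = ι'.2.2 := by rw [← h4, ← g4, e1]
    exact Prod.ext e1 (Prod.ext e2 e3)
  have hCu : (⋃ ι, C ι) = Vc P Δ u₁ j₁ k θ E₁ := by
    ext y
    simp only [mem_iUnion]
    constructor
    · rintro ⟨ι, h, -⟩
      exact h
    · intro h
      exact ⟨(Bc P Δ u₁ j₁ k θ E₁ y, ⌊y 0 / (2 : ℝ) ^ (k - (u₁ : ℤ))⌋,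
        ⌊pr s₁ y / (2 : ℝ) ^ (Bc P Δ u₁ j₁ k θ E₁ y)⌋), h, rfl, rfl, rfl⟩
  -- the set of points for one cell
  set T : ℤ × ℤ × ℤ → Set Pl := fun ι => {x | ∃ y₁ ∈ C ι, Nr P Δ ct u₁ j₁ k θ E₁ x y₁ ∧
      ∃ y₂ ∈ Lc P Δ u₂ j₂ k θ E₂ q₂, Nr P Δ ct u₂ j₂ k θ E₂ x y₂ ∧
      (k - 2 ^ q₂ ≤ Bc P Δ u₁ j₁ k θ E₁ y₁ ∨
        (2 : ℝ) ^ (k - 2 ^ q₂) ≤ |s₁ - s₂| * (2 : ℝ) ^ (k - (u₂ : ℤ)))} with hT
  have hTb : ∀ ι, volume (T ι) ≤ ENNReal.ofReal (10 ^ 6 * DD P u₂ / θ) * volume (C ι) := by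
    intro ι
    rcases (T ι).eq_empty_or_nonempty with h | ⟨x₀, y₀, hy₀, -, -, -, -, hcond⟩
    · rw [h, measure_empty]
      exact zero_le
    · rw [hy₀.2.1] at hcond
      have hvol : volume (C ι) = ENNReal.ofReal ((2 : ℝ) ^ (k - (u₁ : ℤ) + ι.1)) := by
        rw [hCell ι y₀ hy₀]
        exact (hLGR.1 _ _ _ _).2.1
      have hmain := cell_bound hECR (Fo P u₂ k q₂ E₂) s₁ s₂ (k - (u₂ : ℤ)) (k - 2 ^ q₂) ι.1 (u₂ - u₁)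
        (DD P u₂) (θ / 2) ((2 : ℝ) ^ k • ct u₁ j₁) ((2 : ℝ) ^ k • ct u₂ j₂) y₀ hs₁ hs₂
        ((hEFB.1 E₂ (DD P u₂) (k - 2 ^ q₂)).2.2 hB₂) hba hDD (by positivity)
        (fun y => hEFB.2.2.2.2 E₂ (DD P u₂) (k - 2 ^ q₂) (k - 2 ^ q₂) y le_rfl) hcond
      rw [← had] at hmain
      have hsub : T ι ⊆ {x : Pl | |(x - (2 : ℝ) ^ k • ct u₁ j₁) 0 - y₀ 0| ≤ 4 * (2 : ℝ) ^ (k - (u₁ : ℤ)) ∧
          |pr s₁ (x - (2 : ℝ) ^ k • ct u₁ j₁) - pr s₁ y₀| ≤ 3 * (2 : ℝ) ^ ι.1 ∧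
          ∃ i ∈ Finset.Icc (-3 : ℤ) 3, x + ((((i : ℝ) * (2 : ℝ) ^ (k - (u₂ : ℤ))) • E s₂) -
            (2 : ℝ) ^ k • ct u₂ j₂) ∈ Rs (Fo P u₂ k q₂ E₂) s₂ (k - (u₂ : ℤ)) (k - 2 ^ q₂) (θ / 2)} := by
        rintro x ⟨y₁, hy₁, hn₁, y₂, hy₂, hn₂, -⟩
        have hy₁' : y₁ ∈ RQ s₁ (k - (u₁ : ℤ)) ι.1 y₀ := by
          rw [← hCell ι y₀ hy₀]
          exact hy₁
        obtain ⟨d1, d2, -⟩ := hLGR.2.2.2.1 s₁ (k - (u₁ : ℤ)) ι.1 y₀ y₁ hs₁ hy₁'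
        obtain ⟨n1, n2⟩ := hn₁
        rw [hy₁.2.1] at n2
        refine ⟨?_, ?_, ?_⟩
        · rw [abs_le] at n1 ⊢
          rw [abs_lt] at d1
          constructor <;> linarith [n1.1, n1.2, d1.1, d1.2]
        · rw [← hs₁d] at n2
          rw [abs_le] at n2 ⊢
          rw [abs_lt] at d2
          constructor <;> linarith [n2.1, n2.2, d2.1, d2.2]
        · obtain ⟨m1, m2⟩ := hn₂
          obtain ⟨r1, r2⟩ := hX2 y₂ hy₂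
          rw [← hs₂d] at m2
          have ha0 : (0 : ℝ) < (2 : ℝ) ^ (k - (u₂ : ℤ)) := by positivity
          have hfl : |(x - (2 : ℝ) ^ k • ct u₂ j₂) 0 / (2 : ℝ) ^ (k - (u₂ : ℤ)) -
              y₂ 0 / (2 : ℝ) ^ (k - (u₂ : ℤ))| ≤ 3 := by
            rw [← sub_div, abs_div, abs_of_pos ha0, div_le_iff₀ ha0]
            exact m1
          obtain ⟨i, hi, hie⟩ := exists_shift _ _ hfl
          refine ⟨i, hi, y₂, Bc P Δ u₂ j₂ k θ E₂ y₂, r2.le, r1, ?_, ?_⟩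
          · rw [← hie]
            congr 1
            rw [eq_comm, div_add' _ _ _ ha0.ne']
            congr 1
            have e0 : (E s₂) 0 = 1 := (hPT.1 1 s₂).1
            simp only [PiLp.add_apply, PiLp.sub_apply, PiLp.smul_apply, smul_eq_mul, e0]
            ring
          · have e0 : (E s₂) 0 = 1 := (hPT.1 1 s₂).1
            have e1 : (E s₂) 1 = s₂ := (hPT.1 1 s₂).2
            have e2 : pr s₂ (x + ((((i : ℝ) * (2 : ℝ) ^ (k - (u₂ : ℤ))) • E s₂) - (2 : ℝ) ^ k • ct u₂ j₂)) =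
                pr s₂ (x - (2 : ℝ) ^ k • ct u₂ j₂) := by
              simp only [pr, PiLp.add_apply, PiLp.sub_apply, PiLp.smul_apply, smul_eq_mul, e0, e1]
              ring
            rw [e2]
            have hB0 : (0 : ℝ) < (2 : ℝ) ^ (Bc P Δ u₂ j₂ k θ E₂ y₂) := by positivity
            linarith [m2]
      refine (measure_mono hsub).trans (hmain.trans ?_)
      rw [hvol, ← ENNReal.ofReal_mul (by positivity)]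
      apply ENNReal.ofReal_le_ofReal
      have hK : (0 : ℝ) ≤ DD P u₂ / θ * (2 : ℝ) ^ (k - (u₁ : ℤ) + ι.1) := by positivity
      calc 207900 * DD P u₂ / (θ / 2) * (2 : ℝ) ^ (k - (u₁ : ℤ) + ι.1)
          = 415800 * (DD P u₂ / θ * (2 : ℝ) ^ (k - (u₁ : ℤ) + ι.1)) := by
            field_simp
            ring
        _ ≤ 10 ^ 6 * (DD P u₂ / θ * (2 : ℝ) ^ (k - (u₁ : ℤ) + ι.1)) := by
            apply mul_le_mul_of_nonneg_right (by norm_num) hK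
        _ = 10 ^ 6 * DD P u₂ / θ * (2 : ℝ) ^ (k - (u₁ : ℤ) + ι.1) := by ring
  have hcov : {x | ∃ y₁ ∈ Vc P Δ u₁ j₁ k θ E₁, Nr P Δ ct u₁ j₁ k θ E₁ x y₁ ∧
      ∃ y₂ ∈ Lc P Δ u₂ j₂ k θ E₂ q₂, Nr P Δ ct u₂ j₂ k θ E₂ x y₂ ∧
      (k - 2 ^ q₂ ≤ Bc P Δ u₁ j₁ k θ E₁ y₁ ∨
        (2 : ℝ) ^ (k - 2 ^ q₂) ≤ |s₁ - s₂| * (2 : ℝ) ^ (k - (u₂ : ℤ)))} ⊆ ⋃ ι, T ι := by
    rintro x ⟨y₁, hy₁, hrest⟩
    rw [← hCu, mem_iUnion] at hy₁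
    obtain ⟨ι, hι⟩ := hy₁
    exact mem_iUnion.2 ⟨ι, y₁, hι, hrest⟩
  calc _ ≤ volume (⋃ ι, T ι) := measure_mono hcov
    _ ≤ ∑' ι, volume (T ι) := measure_iUnion_le _
    _ ≤ ∑' ι, ENNReal.ofReal (10 ^ 6 * DD P u₂ / θ) * volume (C ι) := ENNReal.tsum_le_tsum hTb
    _ = ENNReal.ofReal (10 ^ 6 * DD P u₂ / θ) * ∑' ι, volume (C ι) := ENNReal.tsum_mul_left
    _ = ENNReal.ofReal (10 ^ 6 * DD P u₂ / θ) * volume (Vc P Δ u₁ j₁ k θ E₁) := by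
        rw [← measure_iUnion hCd hCm, hCu]

end Pool.Agent.Helper76.EP
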